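import Mathlib

/-!
# Invariant Markushevich bases for spaces with a projectional skeleton: definitions and modules
-/

set_option autoImplicit false

open Set Topology Filter Cardinal Ordinal

namespace Pool.Agent.D0H73.MK

universe u

section
variable {𝕜 : Type} [RCLike 𝕜] {X : Type u} [NormedAddCommGroup X] [NormedSpace 𝕜 X]

/-- `(P_s)` is a projectional skeleton on `X`. -/
structure IsSkel {Γ : Type u} [PartialOrder Γ] (P : Γ → X →L[𝕜] X) : Prop where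
  nonempty : Nonempty Γ
  directed : ∀ s t : Γ, ∃ v, s ≤ v ∧ t ≤ v
  exists_sup : ∀ f : ℕ → Γ, Monotone f → ∃ t, IsLUB (range f) t
  proj : ∀ s x, P s (P s x) = P s x
  separable : ∀ s, TopologicalSpace.IsSeparable (range (P s))
  comm : ∀ s t, s ≤ t → ∀ x, P s (P t x) = P s x ∧ P t (P s x) = P s x
  sup : ∀ f : ℕ → Γ, Monotone f → ∀ t, IsLUB (range f) t →
    range (P t) = closure (⋃ n, range (P (f n)))
  union : ∀ x, ∃ s, x ∈ range (P s)

/-- a skeleton bounded by `r` -/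
structure IsBSkel {Γ : Type u} [PartialOrder Γ] (P : Γ → X →L[𝕜] X) (r : ℝ) : Prop
    extends IsSkel P where
  bdd : ∀ s, ‖P s‖ ≤ r

/-- nonempty up-directed set -/
def IsDir {Γ : Type u} [PartialOrder Γ] (T : Set Γ) : Prop :=
  T.Nonempty ∧ ∀ s ∈ T, ∀ t ∈ T, ∃ v ∈ T, s ≤ v ∧ t ≤ v

/-- `L` is the limit of `P_t`, `t ∈ T`. -/
structure IsLim {Γ : Type u} [PartialOrder Γ] (P : Γ → X →L[𝕜] X) (T : Set Γ)
    (L : X →L[𝕜] X) : Prop where
  lim : ∀ x, ∀ ε : ℝ, 0 < ε → ∃ t0 ∈ T, ∀ t ∈ T, t0 ≤ t → ‖P t x - L x‖ < ε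
  left : ∀ t ∈ T, ∀ x, P t (L x) = P t x
  right : ∀ t ∈ T, ∀ x, L (P t x) = P t x
  idem : ∀ x, L (L x) = L x
  rng : range L = closure (⋃ t ∈ T, range (P t))

/-- the range of an operator, as a subspace -/
def rng (D : X →L[𝕜] X) : Submodule 𝕜 X := LinearMap.range (D : X →ₗ[𝕜] X)

/-- the set `S` of indices gives a skeleton on the subspace `W` -/
structure IsSub {Γ : Type u} [PartialOrder Γ] (P : Γ → X →L[𝕜] X) (S : Set Γ)
    (W : Submodule 𝕜 X) : Prop where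
  dir : IsDir S
  closed : ∀ f : ℕ → Γ, Monotone f → (∀ n, f n ∈ S) → ∀ t, IsLUB (range f) t → t ∈ S
  maps : ∀ s ∈ S, ∀ x ∈ W, P s x ∈ W
  union : ∀ x ∈ W, ∃ s ∈ S, P s x = x

/-- `dens A ≤ μ` -/
def DensIn (A : Set X) (μ : Cardinal.{u}) : Prop := ∃ s : Set X, s ⊆ A ∧ A ⊆ closure s ∧ #s ≤ μ

/-- `(Q_α)_{α ≤ κ}` is a separable projectional resolution of the projection `E`; for `E = id`
this is an SPRI of `X`. -/
structure IsSPRI (κ : Cardinal.{u}) (E : X →L[𝕜] X) (Q : Ordinal.{u} → X →L[𝕜] X) : Prop where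
  zero : Q 0 = 0
  top : Q κ.ord = E
  sep : ∀ α < κ.ord, TopologicalSpace.IsSeparable (range (Q (α + 1) - Q α))
  comp : ∀ β α, β ≤ α → α ≤ κ.ord → ∀ x, Q α (Q β x) = Q β x ∧ Q β (Q α x) = Q β x
  dense : ∀ x, E x ∈ closure (Submodule.span 𝕜 {y | ∃ β < κ.ord, y = Q (β + 1) x - Q β x} : Set X)

/-- a projectional resolution (without separability of the pieces) of length `κ.ord` -/
structure IsPRI (κ : Cardinal.{u}) (R : Ordinal.{u} → X →L[𝕜] X) : Prop where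
  zero : R 0 = 0
  top : R κ.ord = ContinuousLinearMap.id 𝕜 X
  comp : ∀ β α, β ≤ α → α ≤ κ.ord → ∀ x, R α (R β x) = R β x ∧ R β (R α x) = R β x
  dense : ∀ x, x ∈ closure (Submodule.span 𝕜 {y | ∃ β < κ.ord, y = R (β + 1) x - R β x} : Set X)

/-- Markushevich basis -/
structure IsMB {I : Type*} (x : I → X) (f : I → X →L[𝕜] 𝕜) : Prop where
  self : ∀ i, f i (x i) = 1
  ne : ∀ i j, i ≠ j → f i (x j) = 0
  dense : closure (Submodule.span 𝕜 (range x) : Set X) = Set.univ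
  separating : ∀ v : X, (∀ i, f i v = 0) → v = 0

end

/-- BND: a skeleton contains a bounded one. Proof: there are `s0`, `n` such that every `t ≥ s0` has
`v ≥ t` with `‖P v‖ ≤ n` (else choose `t_n` increasing with `‖P v‖ > n` for all `v ≥ t_n`; the
supremum gives a contradiction). `Γ' = {v ≥ s0 : ‖P v‖ ≤ n}` is cofinal, and closed under suprema of
increasing sequences, because `P (f k) x → P t x` when the norms are bounded. -/
def S_BND : Prop := ∀ (𝕜 : Type) [RCLike 𝕜] (X : Type u) [NormedAddCommGroup X] [NormedSpace 𝕜 X]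
  (Γ : Type u) [PartialOrder Γ] (P : Γ → X →L[𝕜] X), IsSkel P →
  ∃ (S : Set Γ) (r : ℝ), IsBSkel (fun s : S => P s) r

/-- LIM: the limit operators. Proof: for `x` and `ε` there is `t0 ∈ T` with `‖P t x - P t0 x‖ < ε`
for all `t ∈ T`, `t ≥ t0` (else an increasing sequence of `T` with `‖P (f (k+1)) x - P (f k) x‖ ≥ ε`,
against `P (f k) x → P (sup) x`, which holds since `P (f k) x = P (f k) (P t x)`, `P t x` is in the
closure of the union of the ranges, and the norms are bounded). -/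
def S_LIM : Prop := ∀ (𝕜 : Type) [RCLike 𝕜] (X : Type u) [NormedAddCommGroup X] [NormedSpace 𝕜 X]
  [CompleteSpace X] (Γ : Type u) [PartialOrder Γ] (P : Γ → X →L[𝕜] X) (r : ℝ), IsBSkel P r →
  ∀ T : Set Γ, IsDir T → ∃ L : X →L[𝕜] X, IsLim P T L ∧ ‖L‖ ≤ r

/-- RESTR: transfer to a closed subspace. (The supremum in the subtype `S` is the supremum in `Γ`.
For `w ∈ W` with `P t w = w`: `P (f k) w → w` by boundedness.) -/
def S_RESTR : Prop := ∀ (𝕜 : Type) [RCLike 𝕜] (X : Type u) [NormedAddCommGroup X] [NormedSpace 𝕜 X]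
  (Γ : Type u) [PartialOrder Γ] (P : Γ → X →L[𝕜] X) (r : ℝ), IsBSkel P r →
  ∀ (S : Set Γ) (W : Submodule 𝕜 X), IsSub P S W →
  ∃ P' : S → W →L[𝕜] W, IsBSkel P' r ∧ ∀ s w, ((P' s w : W) : X) = P s w

/-- PIECE: the pieces have skeletons. Here `W = rng (L' - L) = {x : L' x = x, L x = 0}`.
`S = {s : (∃ u : ℕ → Γ monotone in T', ∃ w, IsLUB (range u) w ∧ s ≤ w) ∧ ∀ x ∈ W, L (P s x) = 0}`
(the first condition gives `L' (P s x) = P s x` for all `x`). Closed under suprema: `P (f k) x → P t x`; the second condition by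
interleaving the sequences in `T'` (an increasing sequence of `T'` above all `u_i j`).
Main point, cofinality: for `u0` monotone in `T'` with LUB `w0` there is `s ∈ S`, `s ≥ w0`:
for `a ∈ Γ` the set `L (P a X)` is a separable subset of `range L`, so there is a monotone sequence
`τ a` in `T` with `L (P a X) ⊆ closure (⋃ range P (τ a j))`; take `a_n` monotone in `T'`, `t_n` monotone in `T`,
`t_n ≤ a_n`, `u0 n ≤ a_n`, `t_{n+1} ≥ τ a_i j` for `i, j ≤ n`; `s = sup a_n`, `t* = sup t_n ≤ s`. Then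
`L (P s X) ⊆ range (P t*)` and `P t* (L x) = P t* x` (limit of `P t_n`), so for `x ∈ W`, `y = L (P s x)`:
`y = P t* y = P t* (P s x) = P t* x = P t* (L x) = 0`. -/
def S_PIECE : Prop := ∀ (𝕜 : Type) [RCLike 𝕜] (X : Type u) [NormedAddCommGroup X] [NormedSpace 𝕜 X]
  (Γ : Type u) [PartialOrder Γ] (P : Γ → X →L[𝕜] X) (r : ℝ), IsBSkel P r →
  ∀ (T T' : Set Γ) (L L' : X →L[𝕜] X), IsDir T → IsDir T' → T ⊆ T' → IsLim P T L → IsLim P T' L' →
  ∃ S : Set Γ, IsSub P S (rng (L' - L))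

/-- FG: small directed sets. Proof: `g : Finset Ordinal → Γ` by strong induction on finite sets, `g F`
an upper bound of `{s ξ : ξ ∈ F}` and `{g G : G ⊂ F}`; `T α = {g F : F ⊆ Iio α}`. -/
def S_FG : Prop := ∀ (Γ : Type u) [PartialOrder Γ], Nonempty Γ →
  (∀ s t : Γ, ∃ v, s ≤ v ∧ t ≤ v) → ∀ s : Ordinal.{u} → Γ,
  ∃ T : Ordinal.{u} → Set Γ, (∀ α, IsDir (T α)) ∧ Monotone T ∧
    (∀ ξ α, ξ < α → ∃ t ∈ T α, s ξ ≤ t) ∧
    (∀ lam : Ordinal.{u}, Order.IsSuccLimit lam → T lam = ⋃ α ∈ Iio lam, T α) ∧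
    (∀ α, #(T α) ≤ max α.card ℵ₀)

/-- PRI: from LIM, PIECE, RESTR, FG. `{d ξ : ξ < κ.ord}` dense, `P (s ξ) (d ξ) = d ξ`, `T` from FG, `L α`
the limit operator of `T α` (LIM), `R α = if α = 0 then 0 else L α`. `comp`: for `T ⊆ T'`,
`L' (L x) = L x` (ranges) and `L (L' x) = L x` (limit of `P t (L' x) = P t x`). `L κ.ord = id` (its range is
closed and contains all `d ξ`). At a limit ordinal `R α x → R lam x` (ranges and `‖L α‖ ≤ r`), so
`R α x` is in the closed span of the increments by transfinite induction. Density of `range (L α)`: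
countable dense subsets of `range (P t)`, `t ∈ T α`. -/
def S_PRI : Prop := ∀ (𝕜 : Type) [RCLike 𝕜] (X : Type u) [NormedAddCommGroup X] [NormedSpace 𝕜 X]
  [CompleteSpace X] (Γ : Type u) [PartialOrder Γ] (P : Γ → X →L[𝕜] X) (r : ℝ), IsBSkel P r →
  ∀ κ : Cardinal.{u}, ℵ₀ < κ → DensIn (Set.univ : Set X) κ →
  ∃ R : Ordinal.{u} → X →L[𝕜] X, IsPRI κ R ∧
    (∀ α < κ.ord, DensIn (range (R (α + 1) - R α)) (max α.card ℵ₀)) ∧
    (∀ α < κ.ord, α ≠ 0 → ∃ (Γ' : Type u) (_ : PartialOrder Γ')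
      (P' : Γ' → (rng (R (α + 1) - R α)) →L[𝕜] (rng (R (α + 1) - R α))) (r' : ℝ), IsBSkel P' r')

/-- BASE: a projection with separable range. `Q α = if α = 0 then 0 else E`. -/
def S_BASE : Prop := ∀ (𝕜 : Type) [RCLike 𝕜] (X : Type u) [NormedAddCommGroup X] [NormedSpace 𝕜 X]
  (E : X →L[𝕜] X), (∀ x, E (E x) = E x) → TopologicalSpace.IsSeparable (range E) →
  ∀ κ : Cardinal.{u}, ℵ₀ ≤ κ → ∃ Q : Ordinal.{u} → X →L[𝕜] X, IsSPRI κ E Q

/-- CONV: from the subspace to the whole space. -/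
def S_CONV : Prop := ∀ (𝕜 : Type) [RCLike 𝕜] (X : Type u) [NormedAddCommGroup X] [NormedSpace 𝕜 X]
  (D : X →L[𝕜] X), (∀ x, D (D x) = D x) → ∀ κ : Cardinal.{u},
  (∃ Q' : Ordinal.{u} → (rng D) →L[𝕜] (rng D), IsSPRI κ (ContinuousLinearMap.id 𝕜 (rng D)) Q') →
  ∃ Q : Ordinal.{u} → X →L[𝕜] X, IsSPRI κ D Q

/-- CONCAT: concatenation. For `γ < κ.ord` let `α = Ordinal.log ω γ`, `β = γ - ω ^ α`,
`Q γ = R α + A α (min β (max α.card ℵ₀).ord)`, and `Q γ = id` for `γ ≥ κ.ord` (`A α` the given resolution of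
`D α = R (α + 1) - R α`; `A α β` commutes with `D α` and `D α ∘ A α β = A α β` by `top`, `comp`). For `γ ≠ 0`,
`γ + 1` has the same `α` and `β + 1`; `Q 1 = Q 0 = 0`. `γ = ω ^ α + β < ω ^ (α + 1) < κ.ord` for
`β < (max α.card ℵ₀).ord ≤ ω ^ (α + 1)`. -/
def S_CONCAT : Prop := ∀ (𝕜 : Type) [RCLike 𝕜] (X : Type u) [NormedAddCommGroup X] [NormedSpace 𝕜 X]
  (κ : Cardinal.{u}), ℵ₀ < κ → ∀ R : Ordinal.{u} → X →L[𝕜] X, IsPRI κ R →
  (∀ α < κ.ord, ∃ Q : Ordinal.{u} → X →L[𝕜] X, IsSPRI (max α.card ℵ₀) (R (α + 1) - R α) Q) →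
  ∃ Q : Ordinal.{u} → X →L[𝕜] X, IsSPRI κ (ContinuousLinearMap.id 𝕜 X) Q

/-- IND: the induction on `κ` (over all `X`, `Γ`, `P`), from PRI, BASE, CONV, CONCAT. -/
def S_IND : Prop := ∀ (𝕜 : Type) [RCLike 𝕜] (κ : Cardinal.{u}), ℵ₀ ≤ κ →
  ∀ (X : Type u) [NormedAddCommGroup X] [NormedSpace 𝕜 X]
  [CompleteSpace X] (Γ : Type u) [PartialOrder Γ] (P : Γ → X →L[𝕜] X) (r : ℝ), IsBSkel P r →
  DensIn (Set.univ : Set X) κ → ∃ Q : Ordinal.{u} → X →L[𝕜] X, IsSPRI κ (ContinuousLinearMap.id 𝕜 X) Q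

/-- MB: Markushevich's theorem. Finite biorthogonal sets `F ⊆ X × X*` are enlarged: for `z` let
`y = z - ∑ p.2 z • p.1`; if `y ≠ 0` take `f` with `f y = 1` and add `(y, f - ∑ f p.1 • p.2)`; for `g` let
`h = g - ∑ g p.1 • p.2`; if `h ≠ 0` take `v` with `h v = 1` and add `(v - ∑ p.2 v • p.1, h)`. Do this for a dense
sequence `z_n` and norming functionals `g_n` of the `z_n` (they separate points). -/
def S_MB : Prop := ∀ (𝕜 : Type) [RCLike 𝕜] (X : Type u) [NormedAddCommGroup X] [NormedSpace 𝕜 X]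
  [TopologicalSpace.SeparableSpace X],
  ∃ (I : Type u) (x : I → X) (f : I → X →L[𝕜] 𝕜), IsMB x f

/-- GLUE: `D β = Q (β + 1) - Q β`, Markushevich bases `(x β i, f β i)` of `rng (D β)`; the basis is
`(x β i, f β i ∘ D β)`, `β < κ.ord`; reindexed by the set of its vectors (a type in `Type u`).
`Q α (x β i) = x β i` for `β < α` and `= 0` for `α ≤ β`. -/
def S_GLUE : Prop := ∀ (𝕜 : Type) [RCLike 𝕜] (X : Type u) [NormedAddCommGroup X] [NormedSpace 𝕜 X]
  (κ : Cardinal.{u}) (Q : Ordinal.{u} → X →L[𝕜] X), IsSPRI κ (ContinuousLinearMap.id 𝕜 X) Q →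
  ∃ (I : Type u) (x : I → X) (f : I → X →L[𝕜] 𝕜), IsMB x f ∧
    ∀ α ≤ κ.ord, ∀ i, Q α (x i) ∈ insert (0 : X) (range x)

end Pool.Agent.D0H73.MK
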