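import Pool.Agent.D0H73.MK.Stm

set_option autoImplicit false

open Set Topology Filter

namespace Pool.Agent.D0H73.MK

universe u

variable {𝕜 : Type} [RCLike 𝕜] {X : Type u} [NormedAddCommGroup X] [NormedSpace 𝕜 X]
  {Γ : Type u} [PartialOrder Γ] {P : Γ → X →L[𝕜] X} {r : ℝ}

theorem IsBSkel.r_nonneg (h : IsBSkel P r) : 0 ≤ r := by
  obtain ⟨s⟩ := h.nonempty
  exact (norm_nonneg _).trans (h.bdd s)

/-- `x ∈ range (P s)` iff `P s x = x`. -/
theorem IsSkel.mem_range_iff (h : IsSkel P) (s : Γ) (x : X) : x ∈ range (P s) ↔ P s x = x := by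
  constructor
  · rintro ⟨y, rfl⟩
    exact h.proj s y
  · intro hx
    exact ⟨x, hx⟩

theorem IsSkel.range_mono (h : IsSkel P) {s t : Γ} (hst : s ≤ t) : range (P s) ⊆ range (P t) := by
  rintro _ ⟨y, rfl⟩
  exact ⟨P s y, (h.comm s t hst y).2⟩

theorem IsBSkel.norm_le (h : IsBSkel P r) (s : Γ) (x : X) : ‖P s x‖ ≤ r * ‖x‖ :=
  ((P s).le_opNorm x).trans (mul_le_mul_of_nonneg_right (h.bdd s) (norm_nonneg x))

/-- convergence along increasing sequences; only a bound for the members of the sequence is needed -/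
theorem IsSkel.tendsto (h : IsSkel P) (f : ℕ → Γ) (hf : Monotone f) (hb : ∀ n, ‖P (f n)‖ ≤ r)
    (t : Γ) (ht : IsLUB (range f) t) (x : X) :
    Tendsto (fun n => P (f n) x) atTop (𝓝 (P t x)) := by
  have hr : 0 ≤ r := (norm_nonneg _).trans (hb 0)
  rw [Metric.tendsto_atTop]
  intro ε hε
  have hle : ∀ n, f n ≤ t := fun n => ht.1 ⟨n, rfl⟩
  have hy : P t x ∈ closure (⋃ n, range (P (f n))) := by
    rw [← h.sup f hf t ht]; exact ⟨x, rfl⟩
  rw [Metric.mem_closure_iff] at hy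
  obtain ⟨z, hz, hdz⟩ := hy (ε / (r + 1)) (by positivity)
  simp only [mem_iUnion] at hz
  obtain ⟨N, hN⟩ := hz
  refine ⟨N, fun n hn => ?_⟩
  have hz' : P (f n) z = z := (h.mem_range_iff _ _).1 (h.range_mono (hf hn) hN)
  have h1 : P (f n) x = P (f n) (P t x) := ((h.comm _ _ (hle n) x).1).symm
  rw [dist_eq_norm, h1]
  have h2 : P (f n) (P t x) - P t x = P (f n) (P t x - z) - (P t x - z) := by
    rw [map_sub, hz']; abel
  rw [h2]
  have h3 : ‖P t x - z‖ < ε / (r + 1) := by rwa [← dist_eq_norm]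
  calc ‖P (f n) (P t x - z) - (P t x - z)‖ ≤ ‖P (f n) (P t x - z)‖ + ‖P t x - z‖ := norm_sub_le _ _
    _ ≤ r * ‖P t x - z‖ + ‖P t x - z‖ := by
        gcongr
        exact ((P (f n)).le_opNorm _).trans (mul_le_mul_of_nonneg_right (hb n) (norm_nonneg _))
    _ = (r + 1) * ‖P t x - z‖ := by ring
    _ < (r + 1) * (ε / (r + 1)) := by
        apply mul_lt_mul_of_pos_left h3; positivity
    _ = ε := by field_simp

theorem IsBSkel.tendsto (h : IsBSkel P r) (f : ℕ → Γ) (hf : Monotone f)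
    (t : Γ) (ht : IsLUB (range f) t) (x : X) :
    Tendsto (fun n => P (f n) x) atTop (𝓝 (P t x)) :=
  h.toIsSkel.tendsto f hf (fun n => h.bdd _) t ht x

/-- least upper bounds in a set of indices closed under suprema of increasing sequences -/
theorem IsSkel.isLUB_coe (h : IsSkel P) (S : Set Γ)
    (hS : ∀ f : ℕ → Γ, Monotone f → (∀ n, f n ∈ S) → ∀ t, IsLUB (range f) t → t ∈ S)
    (f : ℕ → S) (hf : Monotone f) (t : S) (ht : IsLUB (range f) t) :
    IsLUB (range fun n => (f n : Γ)) (t : Γ) := by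
  obtain ⟨w, hw⟩ := h.exists_sup (fun n => (f n : Γ)) (fun a b hab => hf hab)
  have hwS : w ∈ S := hS _ (fun a b hab => hf hab) (fun n => (f n).2) w hw
  have h1 : (⟨w, hwS⟩ : S) = t := by
    apply le_antisymm
    · change w ≤ t
      apply hw.2
      rintro _ ⟨n, rfl⟩
      exact ht.1 ⟨n, rfl⟩
    · apply ht.2
      rintro _ ⟨n, rfl⟩
      exact hw.1 ⟨n, rfl⟩
  have h2 : w = t := congrArg Subtype.val h1
  rw [← h2]; exact hw

theorem IsSkel.exists_lub_coe (h : IsSkel P) (S : Set Γ)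
    (hS : ∀ f : ℕ → Γ, Monotone f → (∀ n, f n ∈ S) → ∀ t, IsLUB (range f) t → t ∈ S)
    (f : ℕ → S) (hf : Monotone f) : ∃ t : S, IsLUB (range f) t := by
  obtain ⟨w, hw⟩ := h.exists_sup (fun n => (f n : Γ)) (fun a b hab => hf hab)
  have hwS : w ∈ S := hS _ (fun a b hab => hf hab) (fun n => (f n).2) w hw
  refine ⟨⟨w, hwS⟩, ?_, ?_⟩
  · rintro _ ⟨n, rfl⟩
    exact hw.1 ⟨n, rfl⟩
  · intro v hv
    change w ≤ v
    apply hw.2
    rintro _ ⟨n, rfl⟩
    exact hv ⟨n, rfl⟩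

end Pool.Agent.D0H73.MK
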