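import Pool.Agent.D0H73.MK.Basic

set_option autoImplicit false

open Set Topology Filter Cardinal

namespace Pool.Agent.D0H73.MK

universe u

section
variable {𝕜 : Type} [RCLike 𝕜] {X : Type u} [NormedAddCommGroup X] [NormedSpace 𝕜 X]

theorem mem_rng (D : X →L[𝕜] X) (x : X) : x ∈ rng D ↔ ∃ y, D y = x := Iff.rfl

theorem rng_coe (D : X →L[𝕜] X) : (rng D : Set X) = range D := by
  ext x; exact Iff.rfl

theorem rng_closed (D : X →L[𝕜] X) (hD : ∀ x, D (D x) = D x) : IsClosed (rng D : Set X) := by
  have h : (rng D : Set X) = {x | D x = x} := by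
    ext x
    constructor
    · rintro ⟨y, rfl⟩
      exact hD y
    · intro hx
      exact ⟨x, hx⟩
  rw [h]
  exact isClosed_eq D.continuous continuous_id

theorem densIn_coe (W : Submodule 𝕜 X) (μ : Cardinal.{u}) (h : DensIn (W : Set X) μ) :
    DensIn (Set.univ : Set W) μ := by
  obtain ⟨s, hs, hd, hc⟩ := h
  refine ⟨(Subtype.val : W → X) ⁻¹' s, subset_univ _, ?_, ?_⟩
  · rintro x -
    rw [closure_subtype]
    have h1 : (Subtype.val '' ((Subtype.val : W → X) ⁻¹' s)) = s := by
      rw [image_preimage_eq_inter_range]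
      apply inter_eq_left.2
      rw [Subtype.range_coe]
      exact hs
    rw [h1]
    exact hd x.2
  · refine le_trans ?_ hc
    exact Cardinal.mk_preimage_of_injective _ _ Subtype.val_injective

theorem densIn_separable (A : Set X) (h : DensIn A ℵ₀) : TopologicalSpace.IsSeparable A := by
  obtain ⟨s, hs, hd, hc⟩ := h
  exact ⟨s, (Cardinal.le_aleph0_iff_set_countable).1 hc, hd⟩

/-- the increments of a resolution are projections -/
theorem IsPRI.proj {κ : Cardinal.{u}} {R : Ordinal.{u} → X →L[𝕜] X} (h : IsPRI κ R)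
    (α : Ordinal.{u}) (hα : α < κ.ord) (x : X) :
    (R (α + 1) - R α) ((R (α + 1) - R α) x) = (R (α + 1) - R α) x := by
  have h1 : α + 1 ≤ κ.ord := Order.add_one_le_of_lt hα
  have h2 : α ≤ α + 1 := le_self_add
  simp only [sub_apply, map_sub]
  rw [(h.comp _ _ le_rfl h1 x).1, (h.comp _ _ h2 h1 x).1, (h.comp _ _ h2 h1 x).2,
    (h.comp _ _ le_rfl hα.le x).1]
  abel

end

theorem t_IND : S_PRI.{u} → S_BASE.{u} → S_CONV.{u} → S_CONCAT.{u} → S_IND.{u} := by
  intro hPRI hBASE hCONV hCONCAT 𝕜 _ κ
  induction κ using WellFoundedLT.induction with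
  | ind κ ih =>
    intro hκ X _ _ _ Γ _ P r hP hd
    rcases hκ.eq_or_lt with h0 | h0
    · refine hBASE 𝕜 X (ContinuousLinearMap.id 𝕜 X) (fun x => rfl) ?_ κ hκ
      rw [← h0] at hd
      exact (densIn_separable _ hd).mono (subset_univ _)
    · obtain ⟨R, hR, hdens, hsk⟩ := hPRI 𝕜 X Γ P r hP κ h0 hd
      refine hCONCAT 𝕜 X κ h0 R hR ?_
      intro α hα
      have hproj := hR.proj α hα
      by_cases hα0 : α = 0
      · refine hBASE 𝕜 X _ hproj ?_ _ (le_max_right _ _)
        apply densIn_separable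
        have := hdens α hα
        rw [hα0, Ordinal.card_zero, max_eq_right zero_le, ← hα0] at this
        exact this
      · obtain ⟨Γ', _, P', r', hP'⟩ := hsk α hα hα0
        apply hCONV 𝕜 X _ hproj
        haveI : CompleteSpace (rng (R (α + 1) - R α)) :=
          (rng_closed _ hproj).completeSpace_coe
        have hlt : max α.card ℵ₀ < κ := max_lt (Cardinal.lt_ord.1 hα) h0
        refine ih _ hlt (le_max_right _ _) (rng (R (α + 1) - R α)) Γ' P' r' hP' ?_
        apply densIn_coe
        rw [rng_coe]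
        exact hdens α hα

end Pool.Agent.D0H73.MK
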